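import Pool.Agent.N305.CG.Stm4
import Pool.Agent.N43.CG.CN2

/-!
Project CG (helper305), part CNG: the number of radii which carry the mass of an optimal dual
measure, general exponent.
-/

set_option autoImplicit false

open MeasureTheory

namespace Pool.Agent.N130.CG.CNG

open Pool.Agent.TH478.CE Pool.Agent.R248.LPT Pool.Agent.N305.CG Pool.Agent.N80.CG.CNT
open Pool.Agent.N43.CG.CN2

theorem s_CNG (h2 : S_LOW) (h3 : S_FEI) : S_CNG := by
  intro e he1 he2 h1 α μ hopt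
  obtain ⟨C, hC, hAR'⟩ := h1 α hopt.1
  have hAR := hAR' μ hopt
  obtain ⟨B, hB, hLOW⟩ := h2 α μ hopt
  have hμ := hopt.2.1
  have hB0 : 0 < B := by linarith
  have hden : 0 < 2 * e - 1 := by linarith
  obtain ⟨E, hE⟩ : ∃ E, E = (e - 1) / (2 * e - 1) := ⟨_, rfl⟩
  have hE0 : 0 ≤ E := by rw [hE]; exact div_nonneg (by linarith) hden.le
  have hE1 : E ≤ 1 := by rw [hE, div_le_one hden]; linarith
  have hEm : E * (2 * e - 1) = e - 1 := by rw [hE, div_mul_cancel₀ _ hden.ne']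
  have hex : 2 - 2 * (e - 1) / (2 * e - 1) = 2 - 2 * E := by rw [hE]; ring
  rw [hex]
  have hex0 : 0 ≤ 2 - 2 * E := by linarith
  have hBp : 0 < B ^ (2 - 2 * E) := Real.rpow_pos_of_pos hB0 _
  refine ⟨(B ^ (2 - 2 * E) * (1 + 6 * C))⁻¹, by positivity, fun R hR s hs => ?_⟩
  have hR0 : 0 < R := by linarith
  have hcard : (0 : ℝ) ≤ s.card := Nat.cast_nonneg _
  rcases lt_or_ge R B with hRB | hRB
  · -- small radii
    have h6 : R ^ (2 - 2 * E) ≤ B ^ (2 - 2 * E) := Real.rpow_le_rpow hR0.le hRB.le hex0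
    rw [inv_mul_le_iff₀ (by positivity)]
    have h7 : B ^ (2 - 2 * E) ≤ B ^ (2 - 2 * E) * (1 + 6 * C) * ((s.card : ℝ) + 1) := by
      have h8 : 1 ≤ (1 + 6 * C) * ((s.card : ℝ) + 1) := by nlinarith
      calc B ^ (2 - 2 * E) = B ^ (2 - 2 * E) * 1 := by ring
        _ ≤ B ^ (2 - 2 * E) * ((1 + 6 * C) * ((s.card : ℝ) + 1)) :=
            mul_le_mul_of_nonneg_left h8 hBp.le
        _ = _ := by ring
    linarith
  · obtain ⟨y, hy⟩ : ∃ y, y = R / B := ⟨_, rfl⟩
    have hy1 : 1 ≤ y := by rw [hy, le_div_iff₀ hB0]; linarith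
    have hy0 : 0 < y := by linarith
    obtain ⟨γ, hγd⟩ : ∃ γ, γ = (y ^ 2)⁻¹ := ⟨_, rfl⟩
    have hγ : 0 < γ := by rw [hγd]; positivity
    have hγ1 : γ ≤ 1 := by
      rw [hγd]
      exact inv_le_one_of_one_le₀ (one_le_pow₀ hy1)
    have hsq : B / √γ = R := by
      rw [hγd, Real.sqrt_inv, Real.sqrt_sq hy0.le, hy]
      field_simp
    obtain ⟨β, hβd⟩ : ∃ β, β = γ / 2 := ⟨_, rfl⟩
    have hβ : 0 < β := by rw [hβd]; positivity
    have hβγ : 2 * β = γ := by rw [hβd]; ring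
    obtain ⟨w, hwd⟩ : ∃ w, w = γ ^ E := ⟨_, rfl⟩
    have hw : 0 < w := by rw [hwd]; exact Real.rpow_pos_of_pos hγ _
    have hw1 : w ≤ 1 := by rw [hwd]; exact Real.rpow_le_one hγ.le hγ1 hE0
    have hγw : γ ≤ w := by
      rw [hwd]
      calc γ = γ ^ (1 : ℝ) := (Real.rpow_one γ).symm
        _ ≤ γ ^ E := Real.rpow_le_rpow_of_exponent_ge hγ hγ1 hE1
    have hβw : β ≤ w := by linarith
    have hAR1 := hAR β w hβ (by linarith) hβw hw1
    have hpow : w ^ (2 * e - 1) * β ^ (1 - e) ≤ 2 := by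
      have e1 : w ^ (2 * e - 1) = (2 * β) ^ (e - 1) := by
        rw [hwd, hβγ, ← Real.rpow_mul hγ.le, hEm]
      rw [e1, Real.mul_rpow (by norm_num) hβ.le, mul_assoc, ← Real.rpow_add hβ]
      have e2 : (e - 1) + (1 - e) = 0 := by ring
      rw [e2, Real.rpow_zero, mul_one]
      calc (2 : ℝ) ^ (e - 1) ≤ 2 ^ (1 : ℝ) :=
            Real.rpow_le_rpow_of_exponent_le (by norm_num) (by linarith)
        _ = 2 := Real.rpow_one 2
    have hAR2 : ∫ b in β..(2 * β), ∫ ω in (-w)..w, ‖TT μ b ω‖ ^ 2 ≤ 3 * C := by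
      refine hAR1.trans ?_
      nlinarith
    classical
    obtain ⟨S, hS⟩ : ∃ S : Finset ℝ, S = (insert 0 s).image (fun ρ => ρ ^ 2) := ⟨_, rfl⟩
    have hScard : (S.card : ℝ) ≤ (s.card : ℝ) + 1 := by
      rw [hS]
      exact_mod_cast Finset.card_image_le.trans (Finset.card_insert_le _ _)
    have hfin := nu_fin hμ hγ
    -- squares
    have hA2 : β * (w * ∑ a ∈ S, ((nu μ γ).real ((fun x : P => ‖x‖ ^ 2) ⁻¹' {a})) ^ 2) ≤
        3 * C := by
      refine le_trans ?_ hAR2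
      have e3 : β * (w * ∑ a ∈ S, ((nu μ γ).real ((fun x : P => ‖x‖ ^ 2) ⁻¹' {a})) ^ 2) =
          ∫ _ in β..(2 * β), (w * ∑ a ∈ S,
            ((nu μ γ).real ((fun x : P => ‖x‖ ^ 2) ⁻¹' {a})) ^ 2) := by
        rw [intervalIntegral.integral_const, smul_eq_mul]
        ring
      rw [e3]
      have hle : β ≤ 2 * β := by linarith
      refine intervalIntegral.integral_mono_on hle intervalIntegrable_const
        ((G_cont hμ hβ w).intervalIntegrable_of_Icc hle) fun b hb => ?_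
      have hb0 : 0 < b := lt_of_lt_of_le hβ hb.1
      have hbγ : b ≤ γ := by rw [← hβγ]; exact hb.2
      have := nu_fin hμ hb0
      have h4 := h3 (nu μ b) inferInstance (fun x => ‖x‖ ^ 2) (by fun_prop) w hw S
      simp only [nu_TT' hμ hb0] at h4
      refine le_trans ?_ h4
      refine mul_le_mul_of_nonneg_left (Finset.sum_le_sum fun a _ => ?_) hw.le
      exact pow_le_pow_left₀ measureReal_nonneg (nu_mono hμ hb0 hbγ _) 2
    -- the mass of the ball
    have hA1 : 1 / γ ≤ ∑ a ∈ S, (nu μ γ).real ((fun x : P => ‖x‖ ^ 2) ⁻¹' {a}) := by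
      have h6 := hLOW γ hγ hγ1
      rw [hsq] at h6
      have h7 := nu_ball hμ hγ R
      rw [Set.indicator_of_mem (Metric.mem_closedBall_self hR0.le)] at h7
      simp only [Pi.one_apply] at h7
      rw [← h7] at h6
      refine h6.trans (le_trans ?_ (measureReal_biUnion_finset_le S _))
      have hae : ∀ᵐ x ∂(nu μ γ), ‖x‖ ≤ R → ‖x‖ ∈ insert (0 : ℝ) s := by
        have h8 : ∀ᵐ x ∂(Measure.dirac (0 : P) + μ), ‖x‖ ≤ R → ‖x‖ ∈ insert (0 : ℝ) s := by
          rw [ae_add_measure_iff]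
          refine ⟨?_, ?_⟩
          · rw [ae_dirac_eq]
            change ‖(0 : P)‖ ≤ R → ‖(0 : P)‖ ∈ insert (0 : ℝ) s
            intro _
            rw [norm_zero]
            exact Finset.mem_insert_self _ _
          · filter_upwards [hs] with x hx hxR
            exact Finset.mem_insert_of_mem (hx hxR)
        exact (withDensity_absolutelyContinuous _ _).ae_le h8
      refine ENNReal.toReal_mono (measure_ne_top _ _) (measure_mono_ae ?_)
      filter_upwards [hae] with x hx hxb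
      have hxR : ‖x‖ ≤ R := by
        have : x ∈ Metric.closedBall (0 : P) R := hxb
        rwa [mem_closedBall_zero_iff] at this
      have h9 : x ∈ ⋃ a ∈ S, (fun x : P => ‖x‖ ^ 2) ⁻¹' {a} := by
        rw [Set.mem_iUnion₂]
        refine ⟨‖x‖ ^ 2, ?_, rfl⟩
        rw [hS]
        exact Finset.mem_image_of_mem _ (hx hxR)
      exact h9
    -- Cauchy-Schwarz
    have hcs := sq_sum_le_card_mul_sum_sq (s := S)
      (f := fun a => (nu μ γ).real ((fun x : P => ‖x‖ ^ 2) ⁻¹' {a}))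
    have h8 : (1 / γ) ^ 2 ≤
        (∑ a ∈ S, (nu μ γ).real ((fun x : P => ‖x‖ ^ 2) ⁻¹' {a})) ^ 2 :=
      pow_le_pow_left₀ (by positivity) hA1 2
    obtain ⟨T2, hT2⟩ : ∃ T2, T2 = ∑ a ∈ S,
      ((nu μ γ).real ((fun x : P => ‖x‖ ^ 2) ⁻¹' {a})) ^ 2 := ⟨_, rfl⟩
    rw [← hT2] at hcs hA2
    have hT0 : 0 ≤ T2 := by rw [hT2]; exact Finset.sum_nonneg fun a _ => sq_nonneg _
    have hA3 : γ * w * T2 ≤ 6 * C := by
      rw [hβd] at hA2
      nlinarith
    have h10 : (1 / γ) ^ 2 ≤ ((s.card : ℝ) + 1) * T2 :=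
      (h8.trans hcs).trans (mul_le_mul_of_nonneg_right hScard hT0)
    have h11 : w / γ ≤ ((s.card : ℝ) + 1) * (6 * C) := by
      calc w / γ = (1 / γ) ^ 2 * (γ * w) := by field_simp
        _ ≤ ((s.card : ℝ) + 1) * T2 * (γ * w) :=
            mul_le_mul_of_nonneg_right h10 (by positivity)
        _ = ((s.card : ℝ) + 1) * (γ * w * T2) := by ring
        _ ≤ _ := mul_le_mul_of_nonneg_left hA3 (by positivity)
    have hyp : y ^ (2 - 2 * E) = w / γ := by
      have h13 : γ = y ^ (-2 : ℝ) := by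
        rw [hγd, Real.rpow_neg hy0.le, ← Real.rpow_natCast y 2]
        norm_num
      rw [hwd, h13, ← Real.rpow_mul hy0.le, ← Real.rpow_sub hy0]
      congr 1
      ring
    have h12 : R ^ (2 - 2 * E) = B ^ (2 - 2 * E) * y ^ (2 - 2 * E) := by
      rw [← Real.mul_rpow hB0.le hy0.le, hy]
      congr 1
      field_simp
    rw [h12, inv_mul_le_iff₀ (by positivity), mul_assoc, hyp]
    refine mul_le_mul_of_nonneg_left ?_ hBp.le
    nlinarith

end Pool.Agent.N130.CG.CNG
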